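import Pool.Agent.Helper71.SN.Goals

/-!
# Packet CORE for MP_9b2a83_an (helper71): the charging argument in the graph
-/

set_option autoImplicit false

namespace Pool.Agent.Helper71.SN.PkCORE

open Pool.Agent.Helper71.SN Pool.Agent.Helper39.Net

theorem thm : G_CORE := by
  classical
  intro d b L K hd hb M P h V hV G f W hinj hWW hMW
  let _ : Fintype V := Fintype.ofFinite V
  let X : V → Finset (Pt d) := fun v =>
    (M.filter fun x => f x = v) ∪ (P.filter fun q => v ∈ (W q).support).image fun q => q.1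
  let pos : V → Pt d := fun v c => (X v).sup fun x => x c
  -- (a)
  have ha1 : ∀ p ∈ P, ∀ v, v ∈ (W p).support → ∀ c, p.1 c ≤ pos v c := by
    intro p hp v hv c
    apply Finset.le_sup (f := fun x : Pt d => x c)
    apply Finset.mem_union_right
    exact Finset.mem_image.mpr ⟨p, Finset.mem_filter.mpr ⟨hp, hv⟩, rfl⟩
  have ha2 : ∀ p ∈ P, ∀ v, v ∈ (W p).support → ∀ c, pos v c ≤ p.2 c := by
    intro p hp v hv c
    apply Finset.sup_le
    intro x hx
    rcases Finset.mem_union.mp hx with hx | hx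
    · rw [Finset.mem_filter] at hx
      exact (hMW x hx.1 p hp (by rw [hx.2]; exact hv) c).2
    · rw [Finset.mem_image] at hx
      obtain ⟨q, hq, rfl⟩ := hx
      rw [Finset.mem_filter] at hq
      exact hWW q hq.1 p hp v hq.2 hv c
  -- (b)
  have hb' : ∀ x ∈ M, pos (f x) = x := by
    intro x hx
    funext c
    apply le_antisymm
    · apply Finset.sup_le
      intro x' hx'
      rcases Finset.mem_union.mp hx' with hx' | hx'
      · rw [Finset.mem_filter] at hx'
        rw [hinj hx'.1 hx hx'.2]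
      · rw [Finset.mem_image] at hx'
        obtain ⟨q, hq, rfl⟩ := hx'
        rw [Finset.mem_filter] at hq
        exact (hMW x hx q hq.1 hq.2 c).1
    · apply Finset.le_sup (f := fun x : Pt d => x c)
      apply Finset.mem_union_left
      exact Finset.mem_filter.mpr ⟨hx, rfl⟩
  -- (c)
  have hc : ∀ p ∈ P, ∃ dd ∈ (W p).darts, L + 1 ≤ SN.tot b (L + 1) p.1 (pos dd.fst) ∧
      ∀ c, agr b (L + 1) (p.1 c) (p.2 c) = agr b (L + 1) (p.1 c) (pos dd.snd c) := by
    intro p hp
    have e1 : SN.tot b (L + 1) p.1 (pos (f p.1)) = d * (L + 1) := by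
      rw [hb' p.1 (h.mem1 p hp), tot_self]
    have e2 : SN.tot b (L + 1) p.1 (pos (f p.2)) = L := by
      rw [hb' p.2 (h.mem2 p hp), h.tot p hp]
    obtain ⟨dd, hdd, h1, h2⟩ := exists_crossing
      (fun v => -((SN.tot b (L + 1) p.1 (pos v) : ℕ) : ℝ)) (-(L : ℝ)) (W p) (by
        rw [e1]
        have : L < d * (L + 1) := by nlinarith
        have : (L : ℝ) < ((d * (L + 1) : ℕ) : ℝ) := by exact_mod_cast this
        linarith) (by
        rw [e2])
    have h1' : L < SN.tot b (L + 1) p.1 (pos dd.fst) := by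
      have : (L : ℝ) < ((SN.tot b (L + 1) p.1 (pos dd.fst) : ℕ) : ℝ) := by linarith
      exact_mod_cast this
    have h2' : SN.tot b (L + 1) p.1 (pos dd.snd) ≤ L := by
      have : ((SN.tot b (L + 1) p.1 (pos dd.snd) : ℕ) : ℝ) ≤ (L : ℝ) := by linarith
      exact_mod_cast this
    refine ⟨dd, hdd, h1', ?_⟩
    have hs : dd.snd ∈ (W p).support := (W p).dart_snd_mem_support_of_mem_darts hdd
    have hle : ∀ c ∈ (Finset.univ : Finset (Fin d)), agr b (L + 1) (p.1 c) (p.2 c) ≤
        agr b (L + 1) (p.1 c) (pos dd.snd c) := by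
      intro c _
      exact agr_mono (ha1 p hp _ hs c) (ha2 p hp _ hs c) (h.grid p.2 (h.mem2 p hp) c)
    have hsum : ∑ c, agr b (L + 1) (p.1 c) (p.2 c) =
        ∑ c, agr b (L + 1) (p.1 c) (pos dd.snd c) := by
      apply le_antisymm (Finset.sum_le_sum hle)
      have h3 : ∑ c, agr b (L + 1) (p.1 c) (p.2 c) = L := h.tot p hp
      rw [h3]
      exact h2'
    intro c
    exact (Finset.sum_eq_sum_iff_of_le hle).mp hsum c (Finset.mem_univ c)
  -- the choice of the darts
  by_cases hPe : P = ∅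
  · subst hPe
    simp
  have hne : P.Nonempty := Finset.nonempty_iff_ne_empty.mpr hPe
  obtain ⟨p₀, hp₀⟩ := hne
  obtain ⟨dd₀, -, -⟩ := hc p₀ hp₀
  let D : Pt d × Pt d → G.Dart := fun p => if hp : p ∈ P then (hc p hp).choose else dd₀
  have hD : ∀ p ∈ P, D p ∈ (W p).darts ∧ L + 1 ≤ SN.tot b (L + 1) p.1 (pos (D p).fst) ∧
      ∀ c, agr b (L + 1) (p.1 c) (p.2 c) = agr b (L + 1) (p.1 c) (pos (D p).snd c) := by
    intro p hp
    have : D p = (hc p hp).choose := by simp only [D, dif_pos hp]
    rw [this]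
    exact (hc p hp).choose_spec
  -- (d)
  have hfib : ∀ dd ∈ P.image D, (P.filter fun p => D p = dd).card ≤ K := by
    intro dd hdd
    rw [Finset.mem_image] at hdd
    obtain ⟨p₁, hp₁, hp₁D⟩ := hdd
    have hgrid : ∀ c, pos dd.fst c < b ^ (L + 1) := by
      intro c
      have hs : (D p₁).fst ∈ (W p₁).support :=
        (W p₁).dart_fst_mem_support_of_mem_darts (hD p₁ hp₁).1
      rw [hp₁D] at hs
      exact lt_of_le_of_lt (ha2 p₁ hp₁ _ hs c) (h.grid p₁.2 (h.mem2 p₁ hp₁) c)
    refine le_trans ?_ (h.few (pos dd.fst) hgrid)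
    apply Finset.card_le_card_of_injOn (fun p => p.1)
    · intro p hp
      rw [Finset.mem_coe, Finset.mem_filter] at hp
      rw [Finset.mem_coe, Finset.mem_filter]
      refine ⟨h.mem1 p hp.1, ?_⟩
      have := (hD p hp.1).2.1
      rw [hp.2] at this
      exact this
    · intro p hp q hq hpq
      rw [Finset.mem_coe, Finset.mem_filter] at hp hq
      have hpq' : p.1 = q.1 := hpq
      have hp3 := (hD p hp.1).2.2
      have hq3 := (hD q hq.1).2.2
      rw [hp.2] at hp3
      rw [hq.2] at hq3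
      have hle : ∀ c, agr b (L + 1) (p.1 c) (p.2 c) ≤ agr b (L + 1) (p.1 c) (q.2 c) := by
        intro c
        rw [hp3 c, hpq', hq3 c]
      rcases h.only p hp.1 q.2 (h.mem2 q hq.1) hle with h1 | h1
      · exfalso
        have h2 := h.lt q hq.1 ⟨0, by omega⟩
        rw [h1, hpq'] at h2
        exact lt_irrefl _ h2
      · exact Prod.ext hpq' h1.symm
  -- (e)
  have h1 := Finset.card_le_mul_card_image P K hfib
  have h2 : (P.image D).card ≤ 2 * G.edgeSet.ncard := by
    refine (Finset.card_le_univ _).trans ?_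
    rw [SimpleGraph.dart_card_eq_twice_card_edges]
    apply le_of_eq
    congr 1
    rw [← SimpleGraph.coe_edgeFinset, Set.ncard_coe_finset]
  calc P.card ≤ K * (P.image D).card := h1
    _ ≤ K * (2 * G.edgeSet.ncard) := Nat.mul_le_mul_left _ h2
    _ = 2 * K * G.edgeSet.ncard := by ring

end Pool.Agent.Helper71.SN.PkCORE
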